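import Pool.Agent.Lib.MP_b07157_agCV.Main
import Pool.Agent.Lib.MP_b07157_agSY.Three

/-!
# Sums of polynomials of degree at most three in four variables and one-variable polynomials
-/

noncomputable section

namespace MPb07157

open MvPolynomial

open CV SS in
/-- **The strong monodromy conjecture, global version**, for the sums
`f = g(x_1, ..., x_4) + ∑ h_i(z_i)`, where `g` has degree at most three, the `h_i` are nonconstant
polynomials in one variable, and the Hessian matrix of `g` at `p` is not zero, and of rank at least two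
for `p` outside a finite set, for each critical zero `(p, z)` of `f`. -/
theorem SmcGlob.of_sum4 {r : ℕ} {g : MvPolynomial (Fin 4) ℂ} (hd : g.totalDegree ≤ 3)
    {h : Fin r → Polynomial ℂ} (hh : ∀ i, 0 < (h i).natDegree) (hne : SS.sh g h ≠ 0)
    (P : Finset (Fin 4 → ℂ))
    (hc : ∀ (p : Fin 4 → ℂ) (z : Fin r → ℂ), eval p g + ∑ i, (h i).eval (z i) = 0 →
      (∀ i, eval p (pderiv i g) = 0) → (∀ i, (Polynomial.derivative (h i)).eval (z i) = 0) →
      YG.hessAt g p ≠ 0 ∧ (p ∈ P ∨ 2 ≤ (YG.hessAt g p).rank)) : SmcGlob (SS.sh g h) := by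
  classical
  obtain ⟨S, hS⟩ : ∃ S : Set ((Fin 4 → ℂ) × (Fin r → ℂ)), S = {q | q.1 ∈ P ∧
      eval q.1 g + ∑ i, (h i).eval (q.2 i) = 0 ∧ (∀ i, eval q.1 (pderiv i g) = 0) ∧
      ∀ i, (Polynomial.derivative (h i)).eval (q.2 i) = 0} := ⟨_, rfl⟩
  have hSf : S.Finite := by
    refine Set.Finite.subset ((P.finite_toSet).prod (finite_crit hh)) ?_
    rintro ⟨p, z⟩ hq
    rw [hS] at hq
    exact ⟨hq.1, hq.2.2.2⟩
  refine SmcGlob.of_sumM (by norm_num) hh hne
    (T := (fun q => ({(Fin.append q.1 q.2 : Fin (4 + r) → ℂ)} : Set (Fin (4 + r) → ℂ))) '' S)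
    (hSf.image _) ?_ fun p z h1 h2 h3 => ?_
  · rintro _ ⟨⟨p, z⟩, hq, rfl⟩
    rw [hS] at hq
    obtain ⟨-, h1, h2, h3⟩ := hq
    refine ⟨isConstr_point _, MonoAlong.of_point hne fun _ _ => ?_⟩
    refine smcLoc_sh hh hne h3 fun m hm _ => ?_
    obtain ⟨G, hG⟩ : ∃ G, G = translate p (g + C (∑ i, (h i).eval (z i))) := ⟨_, rfl⟩
    rw [← hG]
    refine smcLoc_sg_crit ?_ ?_ (fun i => ?_) ?_ hm
    · rw [hG]
      refine (D5.totalDegree_translate_le p _).trans ((totalDegree_add _ _).trans ?_)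
      rw [totalDegree_C]
      exact max_le hd (by norm_num)
    · rw [hG, SE3.coeff_zero_tr, map_add, eval_C]
      exact h1
    · rw [hG, coeff_single_eq_eval, pderiv_translate, D5.eval_translate', zero_add,
        pderiv_add_C]
      exact h2 i
    · rw [hG, SE3.hessAt_translate, zero_add, hessAt_add_C]
      exact (hc p z h1 h2 h3).1
  · rcases (hc p z h1 h2 h3).2 with hP | hr
    · exact Or.inl ⟨_, ⟨(p, z), by rw [hS]; exact ⟨hP, h1, h2, h3⟩, rfl⟩,
        Set.mem_singleton _⟩
    · exact Or.inr (by omega)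

open CV SS in
/-- **The strong monodromy conjecture, local version**, for the sums
`f = g(x_1, ..., x_4) + ∑ h_i(z_i)`, `deg g ≤ 3`, where the first or the second derivatives of `g` do
not all vanish at the origin. -/
theorem SmcLoc.of_sum4 {r : ℕ} {g : MvPolynomial (Fin 4) ℂ} (hd : g.totalDegree ≤ 3)
    {h : Fin r → Polynomial ℂ} (hh : ∀ i, 0 < (h i).natDegree) (hne : SS.sh g h ≠ 0)
    (h0 : coeff 0 (SS.sh g h) = 0)
    (hc : (∀ i, coeff 0 (pderiv i g) = 0) → YG.hessAt g 0 ≠ 0) : SmcLoc (SS.sh g h) := by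
  classical
  by_cases hsm : ∃ i, coeff (Finsupp.single i 1) (sh g h) ≠ 0
  · obtain ⟨i, hi⟩ := hsm
    exact SU.smcLoc_smooth h0 hi
  push Not at hsm
  have hPc : ∀ i, eval 0 (pderiv i (sh g h)) = 0 := fun i => by
    rw [← coeff_single_eq_eval, hsm]
  have e0 : (Fin.append (0 : Fin 4 → ℂ) (0 : Fin r → ℂ)) = 0 := by
    funext j
    refine Fin.addCases (fun j => ?_) (fun i => ?_) j
    · rw [Fin.append_left]
      rfl
    · rw [Fin.append_right]
      rfl
  have hz : ∀ i, (Polynomial.derivative (h i)).eval ((0 : Fin r → ℂ) i) = 0 := fun i => by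
    have := eval_pderiv_natAdd_sh g h 0 i
    rw [hPc] at this
    exact this.symm
  have hp : ∀ i, eval 0 (pderiv i g) = 0 := fun i => by
    have := eval_pderiv_castAdd_sh g h 0 i
    rw [hPc] at this
    exact this.symm
  have h3 : eval 0 g + ∑ i, (h i).eval ((0 : Fin r → ℂ) i) = 0 := by
    rw [coeff_zero_eq_eval, eval_sh] at h0
    exact h0
  have key := smcLoc_sh hh hne hz (p := 0) fun m hm _ => by
    obtain ⟨G, hG⟩ : ∃ G, G = translate 0 (g + C (∑ i, (h i).eval ((0 : Fin r → ℂ) i))) :=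
      ⟨_, rfl⟩
    rw [← hG]
    refine smcLoc_sg_crit ?_ ?_ (fun i => ?_) ?_ hm
    · rw [hG]
      refine (D5.totalDegree_translate_le 0 _).trans ((totalDegree_add _ _).trans ?_)
      rw [totalDegree_C]
      exact max_le hd (by norm_num)
    · rw [hG, SE3.coeff_zero_tr, map_add, eval_C]
      exact h3
    · rw [hG, coeff_single_eq_eval, pderiv_translate, D5.eval_translate', zero_add,
        pderiv_add_C]
      exact hp i
    · rw [hG, SE3.hessAt_translate, zero_add, hessAt_add_C]
      exact hc fun i => by rw [coeff_zero_eq_eval]; exact hp i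
  rwa [e0, translate_zero] at key

end MPb07157
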