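import Pool.Agent.Lib.MP_b07157_agCR.M1
import Pool.Agent.Lib.MP_b07157_agCS.N1
import Pool.Agent.Lib.MP_b07157_agCV.N3
import Pool.Agent.Lib.MP_b07157_agCS.B2

/-!
# Triple line
-/

noncomputable section

namespace MPb07157

open MvPolynomial

namespace CV

open CR CS

namespace H3

theorem constantCoeff_eq_zero {R : MvPolynomial (Fin 4) ℂ} (hR : R.IsHomogeneous 1) :
    constantCoeff R = 0 := by
  rw [constantCoeff_eq]
  exact hR.coeff_eq_zero (by simp)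

theorem eval_qf (k : Fin 6 → ℂ) (w : Fin 3 → ℂ) : eval w (qf k) =
    k 0 * w 0 ^ 2 + k 1 * w 1 ^ 2 + k 2 * w 2 ^ 2 + k 3 * (w 1 * w 2) + k 4 * (w 0 * w 2) +
      k 5 * (w 0 * w 1) := by
  simp only [qf, map_mul, map_add, map_pow, eval_X, eval_C]

theorem isHomogeneous_qf (k : Fin 6 → ℂ) : (qf k).IsHomogeneous 2 := by
  have h1 : ∀ (c : ℂ) (i j : Fin 3),
      (C c * (X i * X j) : MvPolynomial (Fin 3) ℂ).IsHomogeneous 2 := fun c i j =>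
    ((isHomogeneous_X ℂ i).mul (isHomogeneous_X ℂ j)).C_mul c
  have h2 : ∀ (c : ℂ) (i : Fin 3),
      (C c * X i ^ 2 : MvPolynomial (Fin 3) ℂ).IsHomogeneous 2 := fun c i =>
    (isHomogeneous_X_pow i 2).C_mul c
  exact (((((h2 _ _).add (h2 _ _)).add (h2 _ _)).add (h1 _ _ _)).add (h1 _ _ _)).add (h1 _ _ _)

theorem cU_one : cU ![1, 0, 0, 0] = X 0 ^ 3 := by
  simp [cU]

theorem isHomogeneous_cU_one : (cU ![1, 0, 0, 0]).IsHomogeneous 3 := by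
  rw [cU_one]
  exact isHomogeneous_X_pow 0 3

theorem exists_equiv (M : Matrix (Fin 3) (Fin 3) ℂ) (h : M.det ≠ 0) :
    ∃ e : (Fin 3 → ℂ) ≃ₗ[ℂ] (Fin 3 → ℂ), ∀ w, e w = M.mulVec w := by
  have hu : IsUnit M.det := isUnit_iff_ne_zero.2 h
  exact ⟨Matrix.toLin'OfInv (Matrix.nonsing_inv_mul M hu) (Matrix.mul_nonsing_inv M hu),
    fun w => Matrix.toLin'_apply M w⟩

theorem exists_kill (α δ : ℂ) : ∃ s : ℂ, δ - 2 * α * s = 0 ∨ α = 0 := by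
  by_cases h : α = 0
  · exact ⟨0, Or.inr h⟩
  · refine ⟨δ / (2 * α), Or.inl ?_⟩
    rw [mul_div_cancel₀ _ (mul_ne_zero two_ne_zero h), sub_self]

end H3

/-- Let `c = x_0³`. A linear change of `x_1, x_2` (`binary_quadratic` of agCS/B2, `gR_lin'`) makes the part of `q` in `x_1, x_2` diagonal, `γ x_1² + δ x_2²`; the shift kills `x_0²`; if `γ ≠ 0` the change `x_1 → x_1 - (α/(2γ)) x_0` kills the coefficient `α` of `x_0x_1`, similarly for `δ ≠ 0`; kill `x_0²` again: `suLoc_f3`. (`exists_qf`; `gR_shift`; then the form is literally the one of the cited theorem, `MvPolynomial.funext`; `QV.suLoc_of_linEq`.) -/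
theorem suLoc_c3 {R : MvPolynomial (Fin 4) ℂ} (hR : R.IsHomogeneous 1)
    {q : MvPolynomial (Fin 3) ℂ} (hq : q.IsHomogeneous 2) : QV.SuLoc (gR R q (cU ![1, 0, 0, 0])) := by
  obtain ⟨k, rfl⟩ := exists_qf hq
  obtain ⟨a, b, g, d, γ, δ, hdet, hnf⟩ := binary_quadratic ![k 1, k 3, k 2]
  obtain ⟨s, hs⟩ := H3.exists_kill γ (k 4 * g + k 5 * a)
  obtain ⟨t, ht⟩ := H3.exists_kill δ (k 4 * d + k 5 * b)
  obtain ⟨α, hα⟩ : ∃ α, α = k 4 * g + k 5 * a - 2 * γ * s := ⟨_, rfl⟩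
  obtain ⟨β, hβ⟩ : ∃ β, β = k 4 * d + k 5 * b - 2 * δ * t := ⟨_, rfl⟩
  obtain ⟨κ, hκ⟩ : ∃ κ, κ = k 0 + γ * s ^ 2 + δ * t ^ 2 - (k 4 * g + k 5 * a) * s -
    (k 4 * d + k 5 * b) * t := ⟨_, rfl⟩
  obtain ⟨e, he⟩ := H3.exists_equiv !![1, 0, 0; -(a * s + b * t), a, b; -(g * s + d * t), g, d] (by
    have h : (!![1, 0, 0; -(a * s + b * t), a, b; -(g * s + d * t), g, d] :
        Matrix (Fin 3) (Fin 3) ℂ).det = a * d - b * g := by
      rw [Matrix.det_fin_three]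
      simp
    rw [h]
    exact hdet)
  have e0 : ∀ w, e w 0 = w 0 := by
    intro w
    rw [he]
    simp [Matrix.mulVec, dotProduct, Fin.sum_univ_three]
  have e1 : ∀ w, e w 1 = a * (w 1 - s * w 0) + b * (w 2 - t * w 0) := by
    intro w
    rw [he]
    simp [Matrix.mulVec, dotProduct, Fin.sum_univ_three]
    ring
  have e2 : ∀ w, e w 2 = g * (w 1 - s * w 0) + d * (w 2 - t * w 0) := by
    intro w
    rw [he]
    simp [Matrix.mulVec, dotProduct, Fin.sum_univ_three]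
    ring
  have hnf' : ∀ y z, k 1 * (a * y + b * z) ^ 2 + k 3 * ((a * y + b * z) * (g * y + d * z)) +
      k 2 * (g * y + d * z) ^ 2 = γ * y ^ 2 + δ * z ^ 2 := hnf
  obtain ⟨R1, hR1, h1⟩ := gR_lin' hR (q := qf k) (q' := qf ![κ, γ, δ, 0, β, α])
    (c := cU ![1, 0, 0, 0]) (c' := cU ![1, 0, 0, 0]) e (fun w => by
      rw [H3.cU_one, map_pow, map_pow, eval_X, eval_X, e0]) (fun w => by
      rw [H3.eval_qf, H3.eval_qf, e0, e1, e2]
      show _ = κ * w 0 ^ 2 + γ * w 1 ^ 2 + δ * w 2 ^ 2 + 0 * (w 1 * w 2) + β * (w 0 * w 2) +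
        α * (w 0 * w 1)
      rw [hκ, hα, hβ]
      linear_combination hnf' (w 1 - s * w 0) (w 2 - t * w 0))
  obtain ⟨R2, hR2, h2⟩ := gR_shift hR1 (H3.isHomogeneous_qf ![κ, γ, δ, 0, β, α])
    H3.isHomogeneous_cU_one ![-(κ / 3), 0, 0]
  have h3 : qf ![κ, γ, δ, 0, β, α] + ∑ i, C ((![-(κ / 3), 0, 0] : Fin 3 → ℂ) i) *
      pderiv i (cU ![1, 0, 0, 0]) = qf ![0, γ, δ, 0, β, α] := by
    rw [H3.cU_one, Fin.sum_univ_three]
    have h4 : pderiv 0 (X 0 ^ 3 : MvPolynomial (Fin 3) ℂ) = C 3 * X 0 ^ 2 := by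
      rw [pderiv_pow, pderiv_X_self]
      simp
      exact (map_ofNat C 3).symm
    have h5 : (![-(κ / 3), 0, 0] : Fin 3 → ℂ) 0 = -(κ / 3) := rfl
    have h6 : (![-(κ / 3), 0, 0] : Fin 3 → ℂ) 1 = 0 := rfl
    have h7 : (![-(κ / 3), 0, 0] : Fin 3 → ℂ) 2 = 0 := rfl
    rw [h5, h6, h7, h4, C_0, zero_mul, zero_mul, add_zero, add_zero]
    refine MvPolynomial.funext fun w => ?_
    rw [map_add, H3.eval_qf, H3.eval_qf, map_mul, map_mul, eval_C, eval_C, map_pow, eval_X]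
    show κ * w 0 ^ 2 + γ * w 1 ^ 2 + δ * w 2 ^ 2 + 0 * (w 1 * w 2) + β * (w 0 * w 2) +
        α * (w 0 * w 1) + -(κ / 3) * (3 * w 0 ^ 2) =
      0 * w 0 ^ 2 + γ * w 1 ^ 2 + δ * w 2 ^ 2 + 0 * (w 1 * w 2) + β * (w 0 * w 2) +
        α * (w 0 * w 1)
    ring
  rw [h3] at h2
  refine QV.suLoc_of_linEq h1 (QV.suLoc_of_linEq h2 ?_)
  have h8 : gR R2 (qf ![0, γ, δ, 0, β, α]) (cU ![1, 0, 0, 0]) =
      X 0 ^ 2 * (1 + R2) + X 0 * (C α * (X 1 * X 2) + C β * (X 1 * X 3) + C γ * X 2 ^ 2 +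
        C δ * X 3 ^ 2) + X 1 ^ 3 := by
    rw [H3.cU_one]
    simp [gR, qf]
    ring
  rw [h8]
  exact suLoc_f3 (H3.constantCoeff_eq_zero hR2) α β γ δ (hα ▸ hs) (hβ ▸ ht)

end CV

end MPb07157
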