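import Pool.Agent.Lib.MP_b07157_agCV.G0

/-!
# Faces: type Q
-/

noncomputable section

namespace MPb07157

open MvPolynomial

namespace CV

open CR

/-- The monomials `x_0²`, `x_0x_1x_2`, `x_0x_2x_3`, `x_0x_3²`, `x_1²x_3`, `x_2³`. With `2w_0, 3w_2, 2w_1 + w_3 ≥ N`: if `x_0x_1x_2` has weight `N` then `w_1 ≤ N/6`, `w_3 ≥ 2N/3`, so `x_0x_2x_3` and `x_0x_3²` have weight `> N`. So each face is contained in `{x_0², x_0x_2x_3, x_0x_3², x_2³, x_1²x_3}` or in `{x_0², x_0x_1x_2, x_2³, x_1²x_3}`; both are affinely independent (from `∑ y_a E_a = 0` get also `∑ y_a = 0`, as `N > 0`). By `suLoc_of_faces`, `fin_cases`, `Fin.sum_univ_succ`; the weight conditions are linear (`wt4`, `omega`). -/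
theorem suLoc_fQ {R : MvPolynomial (Fin 4) ℂ} (hR : constantCoeff R = 0) (α β γ : ℂ) :
    QV.SuLoc (X 0 ^ 2 * (1 + R) + X 0 * (C α * (X 1 * X 2) + C β * (X 2 * X 3) + C γ * X 3 ^ 2) +
      (X 1 ^ 2 * X 3 + X 2 ^ 3)) := by
  refine suLoc_of_faces (m := 5) hR ![1, α, β, γ, 1, 1]
    ![![2, 0, 0, 0], ![1, 1, 1, 0], ![1, 0, 1, 1], ![1, 0, 0, 2], ![0, 2, 0, 1], ![0, 0, 3, 0]]
    (by decide) rfl rfl (by decide) (by decide) ?_ ?_
  · intro w hw N hN y hy hs
    have hw0 := hw 0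
    have hw1 := hw 1
    have hw2 := hw 2
    have hw3 := hw 3
    have n0 : N ≤ w 0 * 2 + w 1 * 0 + w 2 * 0 + w 3 * 0 := hN 0 one_ne_zero
    have n4 : N ≤ w 0 * 0 + w 1 * 2 + w 2 * 0 + w 3 * 1 := hN 4 one_ne_zero
    have n5 : N ≤ w 0 * 0 + w 1 * 0 + w 2 * 3 + w 3 * 0 := hN 5 one_ne_zero
    have k0 : y 0 ≠ 0 → w 0 * 2 + w 1 * 0 + w 2 * 0 + w 3 * 0 = N := fun h => (hy 0 h).2
    have k1 : y 1 ≠ 0 → w 0 * 1 + w 1 * 1 + w 2 * 1 + w 3 * 0 = N := fun h => (hy 1 h).2
    have k2 : y 2 ≠ 0 → w 0 * 1 + w 1 * 0 + w 2 * 1 + w 3 * 1 = N := fun h => (hy 2 h).2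
    have k3 : y 3 ≠ 0 → w 0 * 1 + w 1 * 0 + w 2 * 0 + w 3 * 2 = N := fun h => (hy 3 h).2
    have k4 : y 4 ≠ 0 → w 0 * 0 + w 1 * 2 + w 2 * 0 + w 3 * 1 = N := fun h => (hy 4 h).2
    have k5 : y 5 ≠ 0 → w 0 * 0 + w 1 * 0 + w 2 * 3 + w 3 * 0 = N := fun h => (hy 5 h).2
    have s0 := hs 0
    have s1 := hs 1
    have s2 := hs 2
    have s3 := hs 3
    simp [Fin.sum_univ_succ] at s0 s1 s2 s3
    have z1 : y 1 = 0 := by
      by_contra h1
      have e1 := k1 h1
      have z2 : y 2 = 0 := by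
        by_contra h2
        have e2 := k2 h2
        omega
      have z3 : y 3 = 0 := by
        by_contra h3
        have e3 := k3 h3
        omega
      have z4 : y 4 = 0 := by linear_combination s3 - z2 - 2 * z3
      exact h1 (by linear_combination s1 - 2 * z4)
    have z5 : y 5 = 0 := by
      by_contra h5
      have e5 := k5 h5
      have hN0 : (N : ℂ) ≠ 0 := by
        rw [Nat.cast_ne_zero]
        omega
      have q0 : y 0 * N = y 0 * (2 * w 0) := by
        by_cases h : y 0 = 0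
        · rw [h]; ring
        · have e : (N : ℂ) = 2 * w 0 := by exact_mod_cast (by have := k0 h; omega : N = 2 * w 0)
          rw [e]
      have q2 : y 2 * N = y 2 * (w 0 + w 2 + w 3) := by
        by_cases h : y 2 = 0
        · rw [h]; ring
        · have e : (N : ℂ) = w 0 + w 2 + w 3 := by
            exact_mod_cast (by have := k2 h; omega : N = w 0 + w 2 + w 3)
          rw [e]
      have q3 : y 3 * N = y 3 * (w 0 + 2 * w 3) := by
        by_cases h : y 3 = 0
        · rw [h]; ring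
        · have e : (N : ℂ) = w 0 + 2 * w 3 := by
            exact_mod_cast (by have := k3 h; omega : N = w 0 + 2 * w 3)
          rw [e]
      have q4 : y 4 * N = y 4 * (2 * w 1 + w 3) := by
        by_cases h : y 4 = 0
        · rw [h]; ring
        · have e : (N : ℂ) = 2 * w 1 + w 3 := by
            exact_mod_cast (by have := k4 h; omega : N = 2 * w 1 + w 3)
          rw [e]
      have q5 : y 5 * N = y 5 * (3 * w 2) := by
        have e : (N : ℂ) = 3 * w 2 := by exact_mod_cast (by omega : N = 3 * w 2)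
        rw [e]
      have q : (N : ℂ) * (y 0 + y 2 + y 3 + y 4 + y 5) = 0 := by
        linear_combination q0 + q2 + q3 + q4 + q5 + (w 0 : ℂ) * s0 + (w 1 : ℂ) * s1 +
          (w 2 : ℂ) * s2 + (w 3 : ℂ) * s3 - ((w 0 : ℂ) + w 1 + w 2) * z1
      have q' := (mul_eq_zero.1 q).resolve_left hN0
      exact h5 (by linear_combination 4 * q' - 2 * s0 - 3 / 2 * s1 - s2 - s3 + 9 / 2 * z1)
    have z4 : y 4 = 0 := by linear_combination (1 / 2) * s1 - (1 / 2) * z1
    have z2 : y 2 = 0 := by linear_combination s2 - z1 - 3 * z5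
    have z3 : y 3 = 0 := by linear_combination (1 / 2) * s3 - (1 / 2) * z2 - (1 / 2) * z4
    have z0 : y 0 = 0 := by linear_combination (1 / 2) * s0 - (1 / 2) * z1 - (1 / 2) * z2 - (1 / 2) * z3
    intro a
    fin_cases a
    · exact z0
    · exact z1
    · exact z2
    · exact z3
    · exact z4
    · exact z5
  · intro x
    simp [Fin.sum_univ_succ]
    ring

end CV

end MPb07157
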