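import Pool.Agent.Lib.MP_b07157_agCV.G0

/-!
# Faces: type S
-/

noncomputable section

namespace MPb07157

open MvPolynomial

namespace CV

open CR

private def fSc (α β γ : ℂ) : Fin 6 → ℂ := ![1, α, β, γ, 1, 1]

private def fSE : Fin 6 → Fin 4 → ℕ :=
  ![![2, 0, 0, 0], ![1, 1, 0, 1], ![1, 0, 1, 1], ![1, 0, 0, 2], ![0, 2, 0, 1], ![0, 1, 2, 0]]

private theorem fS_sum {m : ℕ} {w : Fin 4 → ℕ} {N : ℕ} {E : Fin m → Fin 4 → ℕ} {y : Fin m → ℂ}
    (hN : ∀ a, y a ≠ 0 → N ≠ 0) (hy : ∀ a, y a ≠ 0 → wt4 w (E a) = N)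
    (hs : ∀ j, ∑ a, y a * (E a j : ℂ) = 0) : ∑ a, y a = 0 := by
  by_cases hall : ∀ a, y a = 0
  · exact Finset.sum_eq_zero fun a _ => hall a
  · push Not at hall
    obtain ⟨a0, ha0⟩ := hall
    have hN0 : (N : ℂ) ≠ 0 := by exact_mod_cast hN a0 ha0
    have h1 : (N : ℂ) * ∑ a, y a = ∑ a, y a * (wt4 w (E a) : ℂ) := by
      rw [Finset.mul_sum]
      refine Finset.sum_congr rfl fun a _ => ?_
      by_cases h : y a = 0
      · rw [h, mul_zero, zero_mul]
      · rw [hy a h, mul_comm]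
    have h2 : ∑ a, y a * (wt4 w (E a) : ℂ) =
        (w 0 : ℂ) * ∑ a, y a * (E a 0 : ℂ) + (w 1 : ℂ) * ∑ a, y a * (E a 1 : ℂ) +
        (w 2 : ℂ) * ∑ a, y a * (E a 2 : ℂ) + (w 3 : ℂ) * ∑ a, y a * (E a 3 : ℂ) := by
      rw [Finset.mul_sum, Finset.mul_sum, Finset.mul_sum, Finset.mul_sum, ← Finset.sum_add_distrib,
        ← Finset.sum_add_distrib, ← Finset.sum_add_distrib]
      refine Finset.sum_congr rfl fun a _ => ?_
      rw [wt4]
      push_cast
      ring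
    rw [h2, hs, hs, hs, hs, mul_zero, mul_zero, mul_zero, mul_zero, add_zero, add_zero,
      add_zero] at h1
    exact (mul_eq_zero.1 h1).resolve_left hN0

/-- The monomials `x_0²`, `x_0x_1x_3`, `x_0x_2x_3`, `x_0x_3²`, `x_1²x_3`, `x_1x_2²`. The monomial `x_0x_1x_3` is never of minimal weight: `w_0 + w_1 + w_3 ≤ N` with `2w_0, 2w_1 + w_3, w_1 + 2w_2 ≥ N`... gives a contradiction (`w_1 + w_3 ≤ N/2` and `2w_1 + w_3 ≥ N` give `w_1 ≥ N/2`, so `w_3 ≤ 0`). The other five exponents are affinely independent (from `∑ y_a E_a = 0` get also `∑ y_a = 0`, as `N > 0`). By `suLoc_of_faces`, `fin_cases`, `Fin.sum_univ_succ`; the weight conditions are linear (`wt4`, `omega`). -/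
theorem suLoc_fS {R : MvPolynomial (Fin 4) ℂ} (hR : constantCoeff R = 0) (α β γ : ℂ) :
    QV.SuLoc (X 0 ^ 2 * (1 + R) + X 0 * (C α * (X 1 * X 3) + C β * (X 2 * X 3) + C γ * X 3 ^ 2) +
      (X 1 ^ 2 * X 3 + X 1 * X 2 ^ 2)) := by
  refine suLoc_of_faces hR (fSc α β γ) fSE ?_ rfl rfl ?_ ?_ ?_ ?_
  · intro a b
    revert a b
    decide
  · decide
  · decide
  · intro w hw N hN y hy hs
    have w0 := hw 0
    have w1 := hw 1
    have w2 := hw 2
    have w3 := hw 3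
    have n0 : N ≤ wt4 w (fSE 0) := hN 0 one_ne_zero
    have n4 : N ≤ wt4 w (fSE 4) := hN 4 one_ne_zero
    have n5 : N ≤ wt4 w (fSE 5) := hN 5 one_ne_zero
    simp only [wt4, fSE, Matrix.cons_val] at n0 n4 n5
    have y1 : y 1 = 0 := by
      by_contra h
      have h1 := (hy 1 h).2
      simp only [wt4, fSE, Matrix.cons_val] at h1
      omega
    have hNpos : ∀ a, y a ≠ 0 → N ≠ 0 := by
      intro a ha hN0
      have h1 := (hy a ha).2
      rw [hN0] at h1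
      revert h1
      fin_cases a <;> simp [wt4, fSE] <;> omega
    have hsum : ∑ a : Fin 6, y a = 0 := fS_sum hNpos (fun a ha => (hy a ha).2) hs
    have s0 : ∑ a : Fin 6, y a * ((fSE a 0 : ℕ) : ℂ) = 0 := hs 0
    have s1 : ∑ a : Fin 6, y a * ((fSE a 1 : ℕ) : ℂ) = 0 := hs 1
    have s2 : ∑ a : Fin 6, y a * ((fSE a 2 : ℕ) : ℂ) = 0 := hs 2
    have s3 : ∑ a : Fin 6, y a * ((fSE a 3 : ℕ) : ℂ) = 0 := hs 3
    rw [Fin.sum_univ_six, y1] at hsum s0 s1 s2 s3
    simp only [fSE, Matrix.cons_val] at s0 s1 s2 s3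
    push_cast at s0 s1 s2 s3
    have y4 : y 4 = 0 := by linear_combination (-4) * hsum + 2 * s0 + 2 * s1 + s2 + s3
    have y5 : y 5 = 0 := by linear_combination s1 - 2 * y4
    have y2 : y 2 = 0 := by linear_combination s2 - 2 * y5
    have y3 : y 3 = 0 := by linear_combination (1 / 2) * (s3 - y2 - y4)
    have y0 : y 0 = 0 := by linear_combination (1 / 2) * (s0 - y2 - y3)
    intro a
    fin_cases a
    · exact y0
    · exact y1
    · exact y2
    · exact y3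
    · exact y4
    · exact y5
  · intro x
    have e : ∑ a : Fin 6, fSc α β γ a * (x 0 ^ fSE a 0 * x 1 ^ fSE a 1 * x 2 ^ fSE a 2 *
        x 3 ^ fSE a 3) = x 0 ^ 2 + α * (x 0 * x 1 * x 3) + β * (x 0 * x 2 * x 3) +
        γ * (x 0 * x 3 ^ 2) + x 1 ^ 2 * x 3 + x 1 * x 2 ^ 2 := by
      rw [Fin.sum_univ_six]
      simp [fSc, fSE]
    refine Eq.trans ?_ (congrArg (fun t => x 0 ^ 2 * eval x R + t) e.symm)
    simp only [map_add, map_mul, map_pow, eval_X, eval_C, map_one]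
    ring

end CV

end MPb07157
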