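import Pool.Agent.Lib.MP_b07157_agCR.M1
import Pool.Agent.Lib.MP_b07157_agCS.N1
import Pool.Agent.Lib.MP_b07157_agCV.NT

/-!
# Type T
-/

noncomputable section

namespace MPb07157

open MvPolynomial

namespace CV

open CR CS

namespace HT

private theorem cc0 {R' : MvPolynomial (Fin 4) ℂ} (hR' : R'.IsHomogeneous 1) :
    constantCoeff R' = 0 := by
  rw [constantCoeff_eq]
  by_contra h0
  have := hR' h0
  simp at this

end HT

/-- The partial derivatives of `cT a b` are `x_1x_2 + 3a x_0²`, `x_0x_2 + 3b x_1²`, `x_0x_1`; the shift by minus the coefficients of `x_1x_2, x_0x_2, x_0x_1` in `q` makes `q` diagonal: `suLoc_fT`. (`exists_qf`; `gR_shift`; then the form is literally the one of the cited theorem, `MvPolynomial.funext`; `QV.suLoc_of_linEq`.) -/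
theorem suLoc_cT {R : MvPolynomial (Fin 4) ℂ} (hR : R.IsHomogeneous 1)
    {q : MvPolynomial (Fin 3) ℂ} (hq : q.IsHomogeneous 2) (a b : ℂ) : QV.SuLoc (gR R q (cT a b)) := by
  have hc : (cT a b).IsHomogeneous 3 := by
    unfold cT
    refine ((?_ : MvPolynomial.IsHomogeneous _ 3).add ?_).add ?_
    · exact ((isHomogeneous_X _ _).mul (isHomogeneous_X _ _)).mul (isHomogeneous_X _ _)
    · simpa using (isHomogeneous_C _ a).mul ((isHomogeneous_X ℂ (0 : Fin 3)).pow 3)
    · simpa using (isHomogeneous_C _ b).mul ((isHomogeneous_X ℂ (1 : Fin 3)).pow 3)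
  obtain ⟨k, rfl⟩ := exists_qf hq
  obtain ⟨R', hR', h⟩ := gR_shift hR hq hc ![-k 3, -k 4, -k 5]
  refine QV.suLoc_of_linEq h ?_
  have := suLoc_fT (HT.cc0 hR') a b (k 0 - 3 * a * k 3) (k 1 - 3 * b * k 4) (k 2)
  convert this using 1
  apply MvPolynomial.funext
  intro x
  simp [gR, qf, cT, Fin.sum_univ_succ, eval_rename, pderiv_X, Derivation.leibniz,
    Pi.single_apply, -mul_eq_mul_left_iff, -mul_eq_mul_right_iff]
  ring

end CV

end MPb07157
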