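import Pool.Agent.Lib.MP_b07157_agCV.G0

/-!
# Faces: type U, first case
-/

noncomputable section

namespace MPb07157

open MvPolynomial

namespace CV

open CR

/-- The monomials `x_0²`, `x_0x_1x_2`, `x_0x_3²`, `x_1³`, `x_2³`. The monomial `x_0x_1x_2` is never of minimal weight (`w_0 ≥ N/2`, `w_1, w_2 ≥ N/3`); the other four exponents are linearly independent. By `suLoc_of_faces`, `fin_cases`, `Fin.sum_univ_succ`; the weight conditions are linear (`wt4`, `omega`). -/
theorem suLoc_fU1 {R : MvPolynomial (Fin 4) ℂ} (hR : constantCoeff R = 0) (α δ : ℂ) :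
    QV.SuLoc (X 0 ^ 2 * (1 + R) + X 0 * (C α * (X 1 * X 2) + C δ * X 3 ^ 2) +
      (X 1 ^ 3 + X 2 ^ 3)) := by
  refine suLoc_of_faces hR (m := 4) ![1, α, δ, 1, 1]
    ![![2, 0, 0, 0], ![1, 1, 1, 0], ![1, 0, 0, 2], ![0, 3, 0, 0], ![0, 0, 3, 0]]
    (by decide) rfl rfl (by decide) (by decide) ?_ ?_
  · intro w hw N hN y hy hs
    have h0 : N ≤ 2 * w 0 := by
      have h := hN 0 (by simp)
      simpa [wt4, mul_comm] using h
    have h3 : N ≤ 3 * w 1 := by
      have h := hN 3 (by simp)
      simpa [wt4, mul_comm] using h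
    have h4 : N ≤ 3 * w 2 := by
      have h := hN 4 (by simp)
      simpa [wt4, mul_comm] using h
    have hy1 : y 1 = 0 := by
      by_contra h1
      have h2 := (hy 1 h1).2
      have h5 : w 0 + w 1 + w 2 = N := by simpa [wt4] using h2
      have := hw 0
      omega
    have e0 := hs 0
    have e1 := hs 1
    have e2 := hs 2
    have e3 := hs 3
    simp [Fin.sum_univ_succ] at e0 e1 e2 e3
    have hy3 : y 3 = 0 := by simpa [hy1] using e1
    have hy4 : y 4 = 0 := by simpa [hy1] using e2
    have hy0 : y 0 = 0 := by simpa [hy1, e3] using e0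
    intro a
    fin_cases a
    · exact hy0
    · exact hy1
    · exact e3
    · exact hy3
    · exact hy4
  · intro x
    simp [Fin.sum_univ_succ]
    ring

end CV

end MPb07157
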