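import Pool.Agent.Lib.MP_b07157_agCV.G0

/-!
# Faces: type U, second case
-/

noncomputable section

namespace MPb07157

open MvPolynomial

namespace CV

open CR

private def uE : Fin 6 → Fin 4 → ℕ :=
  ![![2, 0, 0, 0], ![1, 1, 0, 1], ![0, 3, 0, 0], ![0, 2, 1, 0], ![0, 1, 2, 0], ![0, 0, 3, 0]]

private def uc (e : Fin 4 → ℂ) : Fin 6 → ℂ := ![1, 1, e 0, e 1, e 2, e 3]

/-- By `suLoc_of_faces_u` with the monomials `x_0²`, `x_0x_1x_3`, `x_1³`, `x_1²x_2`, `x_1x_2²`, `x_2³`. At a critical point `u` of the initial part: the equation for `x_3` shows that `x_0x_1x_3` is not in the face, the one for `x_0` that `x_0²` is not. So the face consists of monomials of the binary cubic form. If `w_1 = w_2` it is the whole binary cubic form, and `(u_1, u_2)` is a common zero of its partial derivatives, a contradiction to `SqfU`. If `w_1 ≠ w_2`, there is only one monomial of weight `N`, and its exponent is not zero. -/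
theorem suLoc_fU2 {R : MvPolynomial (Fin 4) ℂ} (hR : constantCoeff R = 0) {e : Fin 4 → ℂ}
    (he : SqfU e) :
    QV.SuLoc (X 0 ^ 2 * (1 + R) + X 0 * (X 1 * X 3) +
      (C (e 0) * X 1 ^ 3 + C (e 1) * (X 1 ^ 2 * X 2) + C (e 2) * (X 1 * X 2 ^ 2) +
        C (e 3) * X 2 ^ 3)) := by
  have key : (X 0 ^ 2 * (1 + R) + X 0 * (X 1 * X 3) +
      (C (e 0) * X 1 ^ 3 + C (e 1) * (X 1 ^ 2 * X 2) + C (e 2) * (X 1 * X 2 ^ 2) +
        C (e 3) * X 2 ^ 3)) =
      X 0 ^ 2 * R + ∑ a : Fin 6, C (uc e a) * ∏ i, X i ^ uE a i := by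
    rw [Fin.sum_univ_six]
    simp [uc, uE, Fin.prod_univ_four]
    ring
  rw [key]
  refine suLoc_of_faces_u hR (uc e) uE (by decide) rfl rfl (by decide) (by decide)
    fun w hw N _ u hu hs => ?_
  obtain ⟨y, hy⟩ : ∃ y : Fin 6 → ℂ, y = fun a =>
    if wt4 w (uE a) = N then uc e a * ∏ i, u i ^ uE a i else 0 := ⟨_, rfl⟩
  have hs' : ∀ j, ∑ a, y a * (uE a j : ℂ) = 0 := by
    intro j
    rw [hy]
    exact hs j
  have hyN : ∀ a, wt4 w (uE a) ≠ N → y a = 0 := fun a ha => by
    rw [hy]
    exact if_neg ha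
  have hyc : ∀ a, wt4 w (uE a) = N → y a = uc e a * ∏ i, u i ^ uE a i := fun a ha => by
    rw [hy]
    exact if_pos ha
  have hc0 : ∀ a, wt4 w (uE a) = N → y a = 0 → uc e a = 0 := fun a ha h => by
    rw [hyc a ha] at h
    exact (mul_eq_zero.1 h).resolve_right
      (Finset.prod_ne_zero_iff.2 fun i _ => pow_ne_zero _ (hu i))
  have s0 : y 0 * 2 + y 1 = 0 := by
    have h := hs' 0
    rw [Fin.sum_univ_six] at h
    simp [uE] at h
    linear_combination h
  have s3 : y 1 = 0 := by
    have h := hs' 3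
    rw [Fin.sum_univ_six] at h
    simpa [uE] using h
  have y0 : y 0 = 0 := by linear_combination (1 / 2) * s0 - (1 / 2) * s3
  have s1 : 3 * y 2 + 2 * y 3 + y 4 = 0 := by
    have h := hs' 1
    rw [Fin.sum_univ_six] at h
    simp [uE] at h
    linear_combination h - s3
  have s2 : y 3 + 2 * y 4 + 3 * y 5 = 0 := by
    have h := hs' 2
    rw [Fin.sum_univ_six] at h
    simp [uE] at h
    linear_combination h
  have w2 : wt4 w (uE 2) = 3 * w 1 := by
    simp [wt4, uE]
    ring
  have w3 : wt4 w (uE 3) = 2 * w 1 + w 2 := by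
    simp [wt4, uE]
    ring
  have w4 : wt4 w (uE 4) = w 1 + 2 * w 2 := by
    simp [wt4, uE]
    ring
  have w5 : wt4 w (uE 5) = 3 * w 2 := by
    simp [wt4, uE]
    ring
  have hall : ∀ a, wt4 w (uE a) = N → y a = 0 := by
    by_cases h12 : w 1 = w 2
    · by_cases hN : 3 * w 1 = N
      · exfalso
        have y2 := hyc 2 (by omega)
        have y3 := hyc 3 (by omega)
        have y4 := hyc 4 (by omega)
        have y5 := hyc 5 (by omega)
        simp only [Fin.prod_univ_four] at y2 y3 y4 y5
        simp [uc, uE] at y2 y3 y4 y5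
        rw [y2, y3, y4] at s1
        rw [y3, y4, y5] at s2
        have e1 : u 1 * (3 * e 0 * u 1 ^ 2 + 2 * e 1 * (u 1 * u 2) + e 2 * u 2 ^ 2) = 0 := by
          linear_combination s1
        have e2 : u 2 * (e 1 * u 1 ^ 2 + 2 * e 2 * (u 1 * u 2) + 3 * e 3 * u 2 ^ 2) = 0 := by
          linear_combination s2
        exact hu 1 (he (u 1) (u 2) ((mul_eq_zero.1 e1).resolve_left (hu 1))
          ((mul_eq_zero.1 e2).resolve_left (hu 2))).1
      · intro a ha
        fin_cases a
        · exact y0
        · exact s3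
        · exact hyN 2 (by omega)
        · exact hyN 3 (by omega)
        · exact hyN 4 (by omega)
        · exact hyN 5 (by omega)
    · intro a ha
      fin_cases a
      · exact y0
      · exact s3
      · have ha' : wt4 w (uE 2) = N := ha
        have y3 := hyN 3 (by omega)
        have y4 := hyN 4 (by omega)
        show y 2 = 0
        linear_combination (1 / 3) * s1 - (2 / 3) * y3 - (1 / 3) * y4
      · have ha' : wt4 w (uE 3) = N := ha
        have y2 := hyN 2 (by omega)
        have y4 := hyN 4 (by omega)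
        show y 3 = 0
        linear_combination (1 / 2) * s1 - (3 / 2) * y2 - (1 / 2) * y4
      · have ha' : wt4 w (uE 4) = N := ha
        have y2 := hyN 2 (by omega)
        have y3 := hyN 3 (by omega)
        show y 4 = 0
        linear_combination s1 - 3 * y2 - 2 * y3
      · have ha' : wt4 w (uE 5) = N := ha
        have y3 := hyN 3 (by omega)
        have y4 := hyN 4 (by omega)
        show y 5 = 0
        linear_combination (1 / 3) * s2 - (1 / 3) * y3 - (2 / 3) * y4
  exact fun a ha => hc0 a ha (hall a ha)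

end CV

end MPb07157
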