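import Pool.Agent.Lib.MP_b07157_agCR.M1
import Pool.Agent.Lib.MP_b07157_agCS.N1
import Pool.Agent.Lib.MP_b07157_agCV.NU1
import Pool.Agent.Lib.MP_b07157_agCV.NU2

/-!
# Type U
-/

noncomputable section

namespace MPb07157

open MvPolynomial

namespace CV

open CR CS

namespace HU

theorem exists_equiv (M : Matrix (Fin 3) (Fin 3) ℂ) (hM : M.det ≠ 0) :
    ∃ e : (Fin 3 → ℂ) ≃ₗ[ℂ] (Fin 3 → ℂ), ∀ w, e w = M.mulVec w := by
  have hu : IsUnit M.det := isUnit_iff_ne_zero.2 hM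
  exact ⟨Matrix.toLin'OfInv (Matrix.nonsing_inv_mul _ hu) (Matrix.mul_nonsing_inv _ hu),
    fun w => rfl⟩

theorem mat {R : MvPolynomial (Fin 4) ℂ} (hR : R.IsHomogeneous 1)
    {q q' c c' : MvPolynomial (Fin 3) ℂ} (M : Matrix (Fin 3) (Fin 3) ℂ) (hM : M.det ≠ 0)
    (hc : ∀ w, eval (M.mulVec w) c = eval w c') (hq : ∀ w, eval (M.mulVec w) q = eval w q') :
    ∃ R' : MvPolynomial (Fin 4) ℂ, R'.IsHomogeneous 1 ∧ LinEq (gR R q c) (gR R' q' c') := by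
  obtain ⟨e, he⟩ := exists_equiv M hM
  exact gR_lin' hR e (fun w => by rw [he, hc]) (fun w => by rw [he, hq])

theorem const {R : MvPolynomial (Fin 4) ℂ} (hR : R.IsHomogeneous 1) : constantCoeff R = 0 := by
  rw [constantCoeff_eq]
  exact hR.coeff_eq_zero (by simp)

theorem hom_qf (k : Fin 6 → ℂ) : (qf k).IsHomogeneous 2 := by
  unfold qf
  have h1 : ∀ (a : ℂ) (i : Fin 3), (C a * X i ^ 2 : MvPolynomial (Fin 3) ℂ).IsHomogeneous 2 :=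
    fun a i => (isHomogeneous_X_pow i 2).C_mul a
  have h2 : ∀ (a : ℂ) (i j : Fin 3),
      (C a * (X i * X j) : MvPolynomial (Fin 3) ℂ).IsHomogeneous 2 :=
    fun a i j => (((isHomogeneous_X ℂ i).mul (isHomogeneous_X ℂ j)).C_mul a)
  exact (((((h1 _ _).add (h1 _ _)).add (h1 _ _)).add (h2 _ _ _)).add (h2 _ _ _)).add (h2 _ _ _)

theorem hom_cU (e : Fin 4 → ℂ) : (cU e).IsHomogeneous 3 := by
  unfold cU
  have h1 : ∀ (a : ℂ) (i : Fin 3), (C a * X i ^ 3 : MvPolynomial (Fin 3) ℂ).IsHomogeneous 3 :=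
    fun a i => (isHomogeneous_X_pow i 3).C_mul a
  have h2 : ∀ (a : ℂ) (i j : Fin 3),
      (C a * (X i ^ 2 * X j) : MvPolynomial (Fin 3) ℂ).IsHomogeneous 3 :=
    fun a i j => (((isHomogeneous_X_pow i 2).mul (isHomogeneous_X ℂ j)).C_mul a)
  have h3 : ∀ (a : ℂ) (i j : Fin 3),
      (C a * (X i * X j ^ 2) : MvPolynomial (Fin 3) ℂ).IsHomogeneous 3 :=
    fun a i j => (((isHomogeneous_X ℂ i).mul (isHomogeneous_X_pow j 2)).C_mul a)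
  exact (((h1 _ _).add (h2 _ _ _)).add (h3 _ _ _)).add (h1 _ _)

/-- shifts in coefficients -/
theorem shift {R : MvPolynomial (Fin 4) ℂ} (hR : R.IsHomogeneous 1) (k : Fin 6 → ℂ)
    (e : Fin 4 → ℂ) (a b : ℂ) : ∃ R' : MvPolynomial (Fin 4) ℂ, R'.IsHomogeneous 1 ∧
      LinEq (gR R (qf k) (cU e))
        (gR R' (qf ![k 0 + (3 * a * e 0 + b * e 1), k 1 + (a * e 2 + 3 * b * e 3), k 2, k 3, k 4,
          k 5 + 2 * (a * e 1 + b * e 2)]) (cU e)) := by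
  obtain ⟨R', hR', h⟩ := gR_shift hR (hom_qf k) (hom_cU e) ![a, b, 0]
  refine ⟨R', hR', ?_⟩
  have h1 : qf k + ∑ i, C ((![a, b, 0] : Fin 3 → ℂ) i) * pderiv i (cU e) =
      qf ![k 0 + (3 * a * e 0 + b * e 1), k 1 + (a * e 2 + 3 * b * e 3), k 2, k 3, k 4,
          k 5 + 2 * (a * e 1 + b * e 2)] := by
    refine MvPolynomial.funext fun x => ?_
    simp [qf, cU, Fin.sum_univ_succ, pderiv_X, Pi.single_apply]
    ring
  rw [h1] at h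
  exact h

/-- changes of the last coordinate -/
theorem zch {R : MvPolynomial (Fin 4) ℂ} (hR : R.IsHomogeneous 1) (k : Fin 6 → ℂ)
    (e : Fin 4 → ℂ) (s t : ℂ) : ∃ R' : MvPolynomial (Fin 4) ℂ, R'.IsHomogeneous 1 ∧
      LinEq (gR R (qf k) (cU e))
        (gR R' (qf ![k 0 + k 2 * s ^ 2 - k 4 * s, k 1 + k 2 * t ^ 2 - k 3 * t, k 2,
          k 3 - 2 * k 2 * t, k 4 - 2 * k 2 * s, k 5 + 2 * k 2 * s * t - k 3 * s - k 4 * t])
          (cU e)) := by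
  refine mat hR !![1, 0, 0; 0, 1, 0; -s, -t, 1] ?_ (fun w => ?_) fun w => ?_
  · rw [Matrix.det_fin_three]
    simp
  · simp [cU, Matrix.mulVec, dotProduct, Fin.sum_univ_succ]
  · simp [qf, Matrix.mulVec, dotProduct, Fin.sum_univ_succ]
    ring

theorem form1 (R : MvPolynomial (Fin 4) ℂ) (α δ : ℂ) :
    gR R (qf ![0, 0, δ, 0, 0, α]) (cU ![1, 0, 0, 1]) =
      X 0 ^ 2 * (1 + R) + X 0 * (C α * (X 1 * X 2) + C δ * X 3 ^ 2) + (X 1 ^ 3 + X 2 ^ 3) := by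
  simp [gR, qf, cU]
  ring

theorem form2 (R : MvPolynomial (Fin 4) ℂ) (e : Fin 4 → ℂ) :
    gR R (qf ![0, 0, 0, 0, 1, 0]) (cU e) = X 0 ^ 2 * (1 + R) + X 0 * (X 1 * X 3) +
      (C (e 0) * X 1 ^ 3 + C (e 1) * (X 1 ^ 2 * X 2) + C (e 2) * (X 1 * X 2 ^ 2) +
        C (e 3) * X 2 ^ 3) := by
  simp [gR, qf, cU]

/-- no mixed terms with the last variable -/
theorem caseB {R : MvPolynomial (Fin 4) ℂ} (hR : R.IsHomogeneous 1) (k : Fin 6 → ℂ)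
    (h3 : k 3 = 0) (h4 : k 4 = 0) : QV.SuLoc (gR R (qf k) (cU ![1, 0, 0, 1])) := by
  obtain ⟨R', hR', h⟩ := shift hR k ![1, 0, 0, 1] (-(k 0 / 3)) (-(k 1 / 3))
  refine QV.suLoc_of_linEq h ?_
  have h1 : (![k 0 + (3 * (-(k 0 / 3)) * (![1, 0, 0, 1] : Fin 4 → ℂ) 0 +
        (-(k 1 / 3)) * (![1, 0, 0, 1] : Fin 4 → ℂ) 1),
      k 1 + ((-(k 0 / 3)) * (![1, 0, 0, 1] : Fin 4 → ℂ) 2 +
        3 * (-(k 1 / 3)) * (![1, 0, 0, 1] : Fin 4 → ℂ) 3), k 2, k 3, k 4,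
      k 5 + 2 * ((-(k 0 / 3)) * (![1, 0, 0, 1] : Fin 4 → ℂ) 1 +
        (-(k 1 / 3)) * (![1, 0, 0, 1] : Fin 4 → ℂ) 2)] : Fin 6 → ℂ) =
      ![0, 0, k 2, 0, 0, k 5] := by
    funext i
    fin_cases i <;> simp [h3, h4] <;> ring
  rw [h1, form1]
  exact suLoc_fU1 (const hR') _ _

theorem caseA {R : MvPolynomial (Fin 4) ℂ} (hR : R.IsHomogeneous 1) (k : Fin 6 → ℂ)
    (h2 : k 2 ≠ 0) : QV.SuLoc (gR R (qf k) (cU ![1, 0, 0, 1])) := by
  obtain ⟨R', hR', h⟩ := zch hR k ![1, 0, 0, 1] (k 4 / (2 * k 2)) (k 3 / (2 * k 2))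
  refine QV.suLoc_of_linEq h (caseB hR' _ ?_ ?_)
  · simp
    field_simp
    ring
  · simp
    field_simp
    ring

/-- the coefficient of `x_0 x_2` is one, the others with `x_2` are zero -/
theorem caseC1 {R : MvPolynomial (Fin 4) ℂ} (hR : R.IsHomogeneous 1) (A T B : ℂ)
    {e : Fin 4 → ℂ} (he : SqfU e) : QV.SuLoc (gR R (qf ![A, T, 0, 0, 1, B]) (cU e)) := by
  obtain ⟨a, b, hab⟩ : ∃ a b : ℂ, T + (a * e 2 + 3 * b * e 3) = 0 := by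
    by_cases h2 : e 2 = 0
    · have h3 : e 3 ≠ 0 := by
        intro h3
        have := he 0 1 (by simp [h2]) (by simp [h3])
        exact one_ne_zero this.2
      refine ⟨0, -(T / (3 * e 3)), ?_⟩
      field_simp
      ring
    · refine ⟨-(T / e 2), 0, ?_⟩
      field_simp
      ring
  obtain ⟨R1, hR1, h1⟩ := shift hR ![A, T, 0, 0, 1, B] e a b
  obtain ⟨R2, hR2, h2⟩ := zch hR1
    ![A + (3 * a * e 0 + b * e 1), 0, 0, 0, 1, B + 2 * (a * e 1 + b * e 2)] e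
    (A + (3 * a * e 0 + b * e 1)) (B + 2 * (a * e 1 + b * e 2))
  refine QV.suLoc_of_linEq h1 ?_
  have e1 : (![(![A, T, 0, 0, 1, B] : Fin 6 → ℂ) 0 + (3 * a * e 0 + b * e 1),
      (![A, T, 0, 0, 1, B] : Fin 6 → ℂ) 1 + (a * e 2 + 3 * b * e 3),
      (![A, T, 0, 0, 1, B] : Fin 6 → ℂ) 2, (![A, T, 0, 0, 1, B] : Fin 6 → ℂ) 3,
      (![A, T, 0, 0, 1, B] : Fin 6 → ℂ) 4,
      (![A, T, 0, 0, 1, B] : Fin 6 → ℂ) 5 + 2 * (a * e 1 + b * e 2)] : Fin 6 → ℂ) =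
      ![A + (3 * a * e 0 + b * e 1), 0, 0, 0, 1, B + 2 * (a * e 1 + b * e 2)] := by
    funext i
    fin_cases i <;> simp [hab]
  rw [e1]
  refine QV.suLoc_of_linEq h2 ?_
  have e2 : ∀ s t : ℂ, (![(![s, 0, 0, 0, 1, t] : Fin 6 → ℂ) 0 +
      (![s, 0, 0, 0, 1, t] : Fin 6 → ℂ) 2 * s ^ 2 - (![s, 0, 0, 0, 1, t] : Fin 6 → ℂ) 4 * s,
      (![s, 0, 0, 0, 1, t] : Fin 6 → ℂ) 1 + (![s, 0, 0, 0, 1, t] : Fin 6 → ℂ) 2 * t ^ 2 -
        (![s, 0, 0, 0, 1, t] : Fin 6 → ℂ) 3 * t,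
      (![s, 0, 0, 0, 1, t] : Fin 6 → ℂ) 2,
      (![s, 0, 0, 0, 1, t] : Fin 6 → ℂ) 3 - 2 * (![s, 0, 0, 0, 1, t] : Fin 6 → ℂ) 2 * t,
      (![s, 0, 0, 0, 1, t] : Fin 6 → ℂ) 4 - 2 * (![s, 0, 0, 0, 1, t] : Fin 6 → ℂ) 2 * s,
      (![s, 0, 0, 0, 1, t] : Fin 6 → ℂ) 5 + 2 * (![s, 0, 0, 0, 1, t] : Fin 6 → ℂ) 2 * s * t -
        (![s, 0, 0, 0, 1, t] : Fin 6 → ℂ) 3 * s - (![s, 0, 0, 0, 1, t] : Fin 6 → ℂ) 4 * t] :
      Fin 6 → ℂ) = ![0, 0, 0, 0, 1, 0] := by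
    intro s t
    funext i
    fin_cases i <;> simp
  rw [e2, form2]
  exact suLoc_fU2 (const hR2) he

theorem caseC2 {R : MvPolynomial (Fin 4) ℂ} (hR : R.IsHomogeneous 1) (k : Fin 6 → ℂ)
    (h2 : k 2 = 0) (h4 : k 4 ≠ 0) : QV.SuLoc (gR R (qf k) (cU ![1, 0, 0, 1])) := by
  obtain ⟨s, hs⟩ : ∃ s : ℂ, k 4 * s = 1 := ⟨(k 4)⁻¹, mul_inv_cancel₀ h4⟩
  have hs0 : s ≠ 0 := by
    rintro rfl
    simp at hs
  obtain ⟨R', hR', h⟩ := mat (q := qf k) (c := cU ![1, 0, 0, 1])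
    (q' := qf ![k 0 * s ^ 2, k 0 * k 3 ^ 2 * s ^ 2 + k 1 - k 5 * k 3 * s, 0, 0, 1,
      -2 * k 0 * k 3 * s ^ 2 + k 5 * s])
    (c' := cU ![s ^ 3, -3 * k 3 * s ^ 3, 3 * k 3 ^ 2 * s ^ 3, 1 - k 3 ^ 3 * s ^ 3]) hR
    !![s, -(k 3 * s), 0; 0, 1, 0; 0, 0, 1] (by
      rw [Matrix.det_fin_three]
      simpa using hs0)
    (fun w => by
      simp [cU, Matrix.mulVec, dotProduct, Fin.sum_univ_succ]
      ring)
    (fun w => by
      simp [qf, Matrix.mulVec, dotProduct, Fin.sum_univ_succ, h2]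
      linear_combination (w 0 * w 2 - k 3 * w 1 * w 2) * hs)
  refine QV.suLoc_of_linEq h (caseC1 hR' _ _ _ ?_)
  intro x y h1 h2
  simp only [Matrix.cons_val_zero, Matrix.cons_val_one, Matrix.cons_val] at h1 h2
  have h3 : x - k 3 * y = 0 := by
    have : (3 * s ^ 3) * (x - k 3 * y) ^ 2 = 0 := by linear_combination h1
    have h3s : (3 * s ^ 3 : ℂ) ≠ 0 := mul_ne_zero three_ne_zero (pow_ne_zero _ hs0)
    exact pow_eq_zero_iff two_ne_zero |>.1 ((mul_eq_zero.1 this).resolve_left h3s)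
  have h4 : y = 0 := by
    have : (3 : ℂ) * y ^ 2 = 0 := by
      linear_combination h2 + 3 * k 3 * s ^ 3 * (x - k 3 * y) * h3
    exact pow_eq_zero_iff two_ne_zero |>.1 ((mul_eq_zero.1 this).resolve_left three_ne_zero)
  subst h4
  exact ⟨by simpa using h3, rfl⟩

theorem caseC3 {R : MvPolynomial (Fin 4) ℂ} (hR : R.IsHomogeneous 1) (k : Fin 6 → ℂ)
    (h2 : k 2 = 0) (h4 : k 4 = 0) (h3 : k 3 ≠ 0) :
    QV.SuLoc (gR R (qf k) (cU ![1, 0, 0, 1])) := by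
  obtain ⟨s, hs⟩ : ∃ s : ℂ, k 3 * s = 1 := ⟨(k 3)⁻¹, mul_inv_cancel₀ h3⟩
  have hs0 : s ≠ 0 := by
    rintro rfl
    simp at hs
  obtain ⟨R', hR', h⟩ := mat (q := qf k) (c := cU ![1, 0, 0, 1])
    (q' := qf ![k 1 * s ^ 2, k 0, 0, 0, 1, k 5 * s])
    (c' := cU ![s ^ 3, 0, 0, 1]) hR
    !![0, 1, 0; s, 0, 0; 0, 0, 1] (by
      rw [Matrix.det_fin_three]
      simpa using hs0)
    (fun w => by
      simp [cU, Matrix.mulVec, dotProduct, Fin.sum_univ_succ]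
      ring)
    (fun w => by
      simp [qf, Matrix.mulVec, dotProduct, Fin.sum_univ_succ, h2, h4]
      linear_combination (w 0 * w 2) * hs)
  refine QV.suLoc_of_linEq h (caseC1 hR' _ _ _ ?_)
  intro x y h1 h2
  simp only [Matrix.cons_val_zero, Matrix.cons_val_one, Matrix.cons_val] at h1 h2
  have h3s : (3 * s ^ 3 : ℂ) ≠ 0 := mul_ne_zero three_ne_zero (pow_ne_zero _ hs0)
  have h5 : (3 * s ^ 3) * x ^ 2 = 0 := by linear_combination h1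
  have h6 : (3 : ℂ) * y ^ 2 = 0 := by linear_combination h2
  exact ⟨pow_eq_zero_iff two_ne_zero |>.1 ((mul_eq_zero.1 h5).resolve_left h3s),
    pow_eq_zero_iff two_ne_zero |>.1 ((mul_eq_zero.1 h6).resolve_left three_ne_zero)⟩

end HU

/-- Let `c = x_0³ + x_1³`, with partial derivatives `3x_0²`, `3x_1²`, `0`. Let `δ` be the coefficient of `x_2²` in `q`. If `δ ≠ 0`: complete the square, `x_2 → x_2 - (linear form in x_0, x_1)` (`gR_lin'`, it fixes `c`), and kill `x_0², x_1²` by a shift: `suLoc_fU1`. If `δ = 0` and `q` does not contain `x_0x_2, x_1x_2`: the same theorem with `δ = 0`. Otherwise `q = x_2 (β x_0 + γ x_1) + b(x_0, x_1)`, `(β, γ) ≠ 0`: a linear change of `x_0, x_1` with `β x_0 + γ x_1 → x_0` makes `c = cU e` with `SqfU e` and `q = x_0 x_2 + b'`; `x_2 → x_2 - (linear form)` leaves `b' = t x_1²`; since `(e_2, e_3) ≠ 0` (otherwise `SqfU` fails at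 `(0, 1)`), a shift by `a_0, a_1` with `a_0 e_2 + 3 a_1 e_3 = -t` kills `x_1²`, and a last change of `x_2` the new multiples of `x_0`: `suLoc_fU2`. (`exists_qf`; `gR_shift`; then the form is literally the one of the cited theorem, `MvPolynomial.funext`; `QV.suLoc_of_linEq`.) -/
theorem suLoc_cU {R : MvPolynomial (Fin 4) ℂ} (hR : R.IsHomogeneous 1)
    {q : MvPolynomial (Fin 3) ℂ} (hq : q.IsHomogeneous 2) : QV.SuLoc (gR R q (cU ![1, 0, 0, 1])) := by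
  obtain ⟨k, rfl⟩ := exists_qf hq
  by_cases h2 : k 2 = 0
  · by_cases h4 : k 4 = 0
    · by_cases h3 : k 3 = 0
      · exact HU.caseB hR k h3 h4
      · exact HU.caseC3 hR k h2 h4 h3
    · exact HU.caseC2 hR k h2 h4
  · exact HU.caseA hR k h2

end CV

end MPb07157
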