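import Pool.Agent.Lib.MP_b07157_agCV.G0

/-!
# Faces: type V, first case
-/

noncomputable section

namespace MPb07157

open MvPolynomial

namespace CV

open CR

/-- The monomials `x_0²`, `x_0x_1x_2`, `x_0x_3²`, `x_0x_2²`, `x_1²x_3`: five affinely independent exponents (from `∑ y_a E_a = 0` get also `∑ y_a = 0`, as `N > 0`). By `suLoc_of_faces`, `fin_cases`, `Fin.sum_univ_succ`; the weight conditions are linear (`wt4`, `omega`). -/
theorem suLoc_fVa {R : MvPolynomial (Fin 4) ℂ} (hR : constantCoeff R = 0) (α β δ : ℂ) :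
    QV.SuLoc (X 0 ^ 2 * (1 + R) + X 0 * (C α * (X 1 * X 2) + C β * X 3 ^ 2 + C δ * X 2 ^ 2) +
      X 1 ^ 2 * X 3) := by
  refine suLoc_of_faces (m := 4) hR ![1, α, β, δ, 1]
    ![![2, 0, 0, 0], ![1, 1, 1, 0], ![1, 0, 0, 2], ![1, 0, 2, 0], ![0, 2, 0, 1]]
    (by decide) rfl rfl (by decide) (by decide) ?_ ?_
  · intro w hw N _ y hy hs
    have hw0 := hw 0
    have hw1 := hw 1
    have hw2 := hw 2
    have hw3 := hw 3
    have e0 := hs 0
    have e1 := hs 1
    have e2 := hs 2
    have e3 := hs 3
    simp [Fin.sum_univ_succ] at e0 e1 e2 e3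
    have k0 : y 0 = 0 ∨ 2 * w 0 = N := by
      by_cases h0 : y 0 = 0
      · exact Or.inl h0
      · right; have := (hy 0 h0).2; simp [wt4] at this; omega
    have k1 : y 1 = 0 ∨ w 0 + w 1 + w 2 = N := by
      by_cases h0 : y 1 = 0
      · exact Or.inl h0
      · right; have := (hy 1 h0).2; simp [wt4] at this; omega
    have k2 : y 2 = 0 ∨ w 0 + 2 * w 3 = N := by
      by_cases h0 : y 2 = 0
      · exact Or.inl h0
      · right; have := (hy 2 h0).2; simp [wt4] at this; omega
    have k3 : y 3 = 0 ∨ w 0 + 2 * w 2 = N := by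
      by_cases h0 : y 3 = 0
      · exact Or.inl h0
      · right; have := (hy 3 h0).2; simp [wt4] at this; omega
    have k4 : y 4 = 0 ∨ 2 * w 1 + w 3 = N := by
      by_cases h0 : y 4 = 0
      · exact Or.inl h0
      · right; have := (hy 4 h0).2; simp [wt4] at this; omega
    have z : y 0 = 0 ∧ y 1 = 0 ∧ y 2 = 0 ∧ y 3 = 0 ∧ y 4 = 0 := by
      by_cases hN : N = 0
      · refine ⟨k0.resolve_right (by omega), k1.resolve_right (by omega),
          k2.resolve_right (by omega), k3.resolve_right (by omega), k4.resolve_right (by omega)⟩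
      · have m0 : (N : ℂ) * y 0 = 2 * w 0 * y 0 := by
          rcases k0 with h | h
          · rw [h]; ring
          · rw [← h]; push_cast; ring
        have m1 : (N : ℂ) * y 1 = (w 0 + w 1 + w 2) * y 1 := by
          rcases k1 with h | h
          · rw [h]; ring
          · rw [← h]; push_cast; ring
        have m2 : (N : ℂ) * y 2 = (w 0 + 2 * w 3) * y 2 := by
          rcases k2 with h | h
          · rw [h]; ring
          · rw [← h]; push_cast; ring
        have m3 : (N : ℂ) * y 3 = (w 0 + 2 * w 2) * y 3 := by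
          rcases k3 with h | h
          · rw [h]; ring
          · rw [← h]; push_cast; ring
        have m4 : (N : ℂ) * y 4 = (2 * w 1 + w 3) * y 4 := by
          rcases k4 with h | h
          · rw [h]; ring
          · rw [← h]; push_cast; ring
        have f0 : 2 * y 0 + y 1 + y 2 + y 3 = 0 := by linear_combination e0
        have f1 : y 1 + 2 * y 4 = 0 := by linear_combination e1
        have f2 : y 1 + 2 * y 3 = 0 := by linear_combination e2
        have f3 : 2 * y 2 + y 4 = 0 := by linear_combination e3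
        have s : (N : ℂ) * (y 0 + y 1 + y 2 + y 3 + y 4) = 0 := by
          linear_combination m0 + m1 + m2 + m3 + m4 + (w 0 : ℂ) * f0 + (w 1 : ℂ) * f1 +
            (w 2 : ℂ) * f2 + (w 3 : ℂ) * f3
        have hNc : (N : ℂ) ≠ 0 := by exact_mod_cast hN
        have s' : y 0 + y 1 + y 2 + y 3 + y 4 = 0 := (mul_eq_zero.1 s).resolve_left hNc
        have h4 : y 4 = 0 := by linear_combination 4 * s' - 2 * f0 - f1 - f2 - f3
        have h1 : y 1 = 0 := by linear_combination f1 - 2 * h4
        have h3 : y 3 = 0 := by linear_combination (f2 - h1) / 2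
        have h2 : y 2 = 0 := by linear_combination (f3 - h4) / 2
        have h0 : y 0 = 0 := by linear_combination (f0 - h1 - h2 - h3) / 2
        exact ⟨h0, h1, h2, h3, h4⟩
    obtain ⟨z0, z1, z2, z3, z4⟩ := z
    intro a
    fin_cases a
    · exact z0
    · exact z1
    · exact z2
    · exact z3
    · exact z4
  · intro x
    simp [Fin.sum_univ_succ]
    ring

end CV

end MPb07157
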