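import Pool.Agent.Lib.MP_b07157_agQV.Chg
import Pool.Agent.Lib.MP_b07157_agSS.Defs

/-!
# Sums with powers of new variables: the literal form
-/

noncomputable section

namespace MPb07157

open MvPolynomial

namespace QV

variable {n : ℕ}

theorem sg_zero (g : MvPolynomial (Fin n) ℂ) (e : Fin 0 → ℕ) : SS.sg g e = g := by
  unfold SS.sg
  rw [Finset.univ_eq_empty, Finset.sum_empty]
  exact (add_zero _).trans (rename_id_apply g)

theorem sg_succ {r : ℕ} (g : MvPolynomial (Fin n) ℂ) (e : Fin (r + 1) → ℕ) :
    SS.sg g e = rename Fin.castSucc (SS.sg g fun i => e i.castSucc) +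
      X (Fin.last (n + r)) ^ e (Fin.last r) := by
  unfold SS.sg
  rw [Fin.sum_univ_castSucc, map_add, rename_rename, map_sum, add_assoc]
  refine congrArg₂ _ rfl (congrArg₂ _ (Finset.sum_congr rfl fun i _ => ?_) rfl)
  rw [map_pow, rename_X]
  rfl

/-- `g + ∑ z_i^{e_i}` is one of the sums of `Sus`, up to the order of the variables. -/
theorem exists_sus (g : MvPolynomial (Fin n) ℂ) {r : ℕ} (e : Fin r → ℕ) (he : ∀ i, 2 ≤ e i) :
    ∃ h : MvPolynomial (Fin (n + r)) ℂ, Sus g h ∧
      ∃ σ : Fin (n + r) ≃ Fin (n + r), SS.sg g e = rename σ h := by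
  induction r with
  | zero => exact ⟨g, Sus.refl, Equiv.refl _, by rw [sg_zero]; exact (rename_id_apply g).symm⟩
  | succ r ih =>
    obtain ⟨h, hs, σ, hσ⟩ := ih (fun i => e i.castSucc) fun i => he _
    have hinj : Function.Injective
        (Fin.cons (Fin.last (n + r)) (fun i => Fin.castSucc (σ i)) :
          Fin (n + r + 1) → Fin (n + r + 1)) := by
      intro a b
      refine Fin.cases ?_ (fun a => ?_) a
      · refine Fin.cases ?_ (fun b => ?_) b
        · intro _
          rfl
        · intro hab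
          rw [Fin.cons_zero, Fin.cons_succ] at hab
          exact absurd hab.symm (Fin.castSucc_lt_last _).ne
      · refine Fin.cases ?_ (fun b => ?_) b
        · intro hab
          rw [Fin.cons_zero, Fin.cons_succ] at hab
          exact absurd hab (Fin.castSucc_lt_last _).ne
        · intro hab
          rw [Fin.cons_succ, Fin.cons_succ] at hab
          rw [σ.injective (Fin.castSucc_injective _ hab)]
    refine ⟨sus0 h (e (Fin.last r)), hs.step (he _),
      Equiv.ofBijective _ (Finite.injective_iff_bijective.1 hinj), ?_⟩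
    rw [sg_succ, hσ, rename_rename]
    unfold sus0
    rw [map_add, map_pow, rename_X, rename_rename]
    exact add_comm _ _

theorem linEq_rename (σ : Fin n ≃ Fin n) (h : MvPolynomial (Fin n) ℂ) :
    CS.LinEq (rename σ h) h := by
  refine ⟨LinearEquiv.funCongrLeft ℂ ℂ σ.symm, fun w => ?_⟩
  rw [eval_rename]
  congr 2
  funext i
  show w (σ.symm (σ i)) = w i
  rw [Equiv.symm_apply_apply]

/-- **The literal form.** -/
theorem SuLoc.smcLoc_sg {g : MvPolynomial (Fin n) ℂ} (hg : SuLoc g) {r : ℕ} {e : Fin r → ℕ}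
    (he : ∀ i, 2 ≤ e i) : SmcLoc (SS.sg g e) := by
  obtain ⟨h, hs, σ, hσ⟩ := exists_sus g e he
  rw [hσ]
  exact (linEq_rename σ h).smcLoc (hg _ h hs)

end QV

end MPb07157
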