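import Pool.Agent.Lib.MP_b07157_agCV.R1
import Pool.Agent.Lib.MP_b07157_agCV.Sg
import Pool.Agent.Lib.MP_b07157_agSS.Main
import Pool.Agent.Lib.MP_b07157_agM.MU
import Pool.Agent.Lib.MP_b07157_agSE.Deg4

/-!
# Sums of polynomials of degree at most three in four variables and powers of new variables
-/

noncomputable section

namespace MPb07157

open MvPolynomial

namespace CV

variable {n r : ℕ}

theorem coeff_zero_eq_eval (f : MvPolynomial (Fin n) ℂ) : coeff 0 f = eval 0 f := by
  rw [MB.eval_eq_constantCoeff, constantCoeff_eq, translate_zero]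

theorem coeff_single_eq_eval (f : MvPolynomial (Fin n) ℂ) (i : Fin n) :
    coeff (Finsupp.single i 1) f = eval 0 (pderiv i f) := by
  rw [← coeff_zero_eq_eval, coeff_pderiv, zero_add]
  simp

/-- The smooth germs among the sums. -/
theorem smcLoc_sg_smooth {g : MvPolynomial (Fin n) ℂ} {e : Fin r → ℕ} (he : ∀ i, 0 < e i)
    (h0 : coeff 0 g = 0)
    (h : (∃ i, coeff (Finsupp.single i 1) g ≠ 0) ∨ ∃ i, e i = 1) : SmcLoc (SS.sg g e) := by
  have h0' : coeff 0 (SS.sg g e) = 0 := by rw [SS.coeff_zero_sg g he, h0]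
  rcases h with ⟨i, hi⟩ | ⟨i, hi⟩
  · refine SU.smcLoc_smooth h0' (i := Fin.castAdd r i) ?_
    rw [coeff_single_eq_eval, SS.eval_pderiv_castAdd]
    rw [coeff_single_eq_eval] at hi
    exact hi
  · refine SU.smcLoc_smooth h0' (i := Fin.natAdd n i) ?_
    rw [coeff_single_eq_eval, SS.eval_pderiv_natAdd, hi]
    simp

theorem sg_ne_zero {g : MvPolynomial (Fin n) ℂ} {e : Fin r → ℕ} (he : ∀ i, 0 < e i)
    (hg : g ≠ 0) : SS.sg g e ≠ 0 := by
  intro h
  apply hg
  refine MvPolynomial.funext fun x => ?_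
  have h1 := SS.eval_sg g e (Fin.append x 0)
  rw [h, map_zero, Finset.sum_eq_zero fun i _ => by
    rw [Fin.append_right, Pi.zero_apply, zero_pow (he i).ne'], add_zero] at h1
  rw [map_zero, h1]
  congr 2
  funext i
  rw [Fin.append_left]

theorem translate_zero' (g : MvPolynomial (Fin n) ℂ) : translate 0 g = g := translate_zero g

/-- The germs at the critical points with a nonzero Hessian matrix. -/
theorem smcLoc_sg_crit {g : MvPolynomial (Fin 4) ℂ} (hd : g.totalDegree ≤ 3)
    (h0 : coeff 0 g = 0) (h1 : ∀ i, coeff (Finsupp.single i 1) g = 0)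
    (hH : YG.hessAt g 0 ≠ 0) {e : Fin r → ℕ} (he : ∀ i, 2 ≤ e i) : SmcLoc (SS.sg g e) := by
  have he0 : ∀ i, 0 < e i := fun i => by
    have := he i
    omega
  have hev : eval 0 g = 0 := by rw [← coeff_zero_eq_eval, h0]
  have hcr : ∀ i, eval 0 (pderiv i g) = 0 := fun i => by rw [← coeff_single_eq_eval, h1]
  have hg : g ≠ 0 := by
    rintro rfl
    apply hH
    ext i j
    unfold YG.hessAt
    rw [Matrix.of_apply, map_zero, map_zero, map_zero, Matrix.zero_apply]
  by_cases hr : (YG.hessAt g 0).rank = 1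
  · have h2 := suLoc_rank_one hd hev hcr hr
    rw [translate_zero'] at h2
    exact h2.smcLoc_sg he
  · refine SS.smcLoc_susp (by omega) h0 h1 ?_ he (sg_ne_zero he0 hg)
    have h2 := CK.hess_translate g 0
    rw [translate_zero'] at h2
    have h3 := SE3.one_le_rank hH
    rw [h2]
    omega

end CV

open CV

/-- **The strong monodromy conjecture, local version**, for the sums
`g(x_1, ..., x_4) + z_1^{e_1} + ... + z_r^{e_r}` with a polynomial `g` of degree at most three and
of multiplicity at most two at the origin; any number of new variables, any positive exponents. -/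
theorem SmcLoc.of_susp4 {r : ℕ} {g : MvPolynomial (Fin 4) ℂ} (hd : g.totalDegree ≤ 3)
    (hm : ∃ j < 3, homogeneousComponent j g ≠ 0) {e : Fin r → ℕ} (he : ∀ i, 0 < e i) :
    SmcLoc (SS.sg g e) := by
  classical
  have hg : g ≠ 0 := by
    obtain ⟨j, _, hj⟩ := hm
    rintro rfl
    exact hj (map_zero _)
  by_cases h0 : coeff 0 g = 0
  swap
  · exact smcLoc_of_coeff_ne (by rw [SS.coeff_zero_sg g he]; exact h0)
  by_cases hl : (∃ i, coeff (Finsupp.single i 1) g ≠ 0) ∨ ∃ i, e i = 1
  · exact smcLoc_sg_smooth he h0 hl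
  push Not at hl
  obtain ⟨hl1, hl2⟩ := hl
  have he2 : ∀ i, 2 ≤ e i := fun i => by
    have h1 := he i
    have h2 := hl2 i
    omega
  refine smcLoc_sg_crit hd h0 hl1 (fun hH => ?_) he2
  obtain ⟨j, hj, hj'⟩ := hm
  apply hj'
  refine SE4.low_of_derivatives h0 (fun i => ?_) (fun i k => ?_) j hj
  · rw [coeff_zero_eq_eval, ← coeff_single_eq_eval, hl1]
  · rw [coeff_zero_eq_eval]
    exact congrFun (congrFun hH i) k

end MPb07157
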