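import Pool.Agent.Lib.MP_b07157_agCR.R2
import Pool.Agent.Lib.MP_b07157_agQV.Sq

/-!
# The case without critical points outside the origin
-/

noncomputable section

namespace MPb07157

open MvPolynomial

namespace CV

open CR CS

/-- **No critical point outside the origin**: `QV.SuLoc.of_sqh` (agQV/Sq) with the weights
`(3, 2, 2, 2)`: the initial part is `x_0² + c(x_1, x_2, x_3)`, whose only critical point is the
origin. -/
theorem suLoc_smooth {R : MvPolynomial (Fin 4) ℂ} (hR : R.IsHomogeneous 1)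
    {q c : MvPolynomial (Fin 3) ℂ} (hq : q.IsHomogeneous 2) (hc : c.IsHomogeneous 3)
    (hs : ∀ p : Fin 3 → ℂ, p ≠ 0 → ∃ i, eval p (pderiv i c) ≠ 0) : QV.SuLoc (gR R q c) := by
  classical
  have he : gR R q c = (X 0 ^ 2 + rename Fin.succ c) +
      (X 0 ^ 2 * R + X 0 ^ 1 * rename Fin.succ q) := by
    unfold gR
    ring
  obtain ⟨P, hPd⟩ : ∃ P, P = X 0 ^ 2 + (rename Fin.succ c : MvPolynomial (Fin 4) ℂ) := ⟨_, rfl⟩
  obtain ⟨Q, hQd⟩ : ∃ Q, Q = X 0 ^ 2 * R + X 0 ^ 1 * (rename Fin.succ q :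
    MvPolynomial (Fin 4) ℂ) := ⟨_, rfl⟩
  have hP : ∀ v ∈ P.support, ∑ j, (![3, 2, 2, 2] : Fin 4 → ℕ) j * v j = 6 := by
    intro v hv
    rw [hPd] at hv
    rcases Finset.mem_union.1 (support_add hv) with h | h
    · rw [support_X_pow, Finset.mem_singleton] at h
      rw [h, R2.wt_single]
    · rw [R2.wt_rename hc h]
  have hQ : ∀ v ∈ Q.support, 6 < ∑ j, (![3, 2, 2, 2] : Fin 4 → ℕ) j * v j := by
    intro v hv
    rw [hQd] at hv
    rcases Finset.mem_union.1 (support_add hv) with h | h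
    · obtain ⟨u, hu, rfl⟩ := R2.support_X_pow_mul h
      rw [R2.wt_add, R2.wt_single]
      have h1 : u.degree = 1 := by
        by_contra hne
        exact (mem_support_iff.1 hu) (hR.coeff_eq_zero hne)
      rw [Finsupp.degree_eq_sum, Fin.sum_univ_four] at h1
      have h2 : ∑ j, (![3, 2, 2, 2] : Fin 4 → ℕ) j * u j = 3 * u 0 + 2 * u 1 + 2 * u 2 + 2 * u 3 := by
        rw [Fin.sum_univ_four]
        rfl
      rw [h2]
      omega
    · obtain ⟨u, hu, rfl⟩ := R2.support_X_pow_mul h
      rw [R2.wt_add, R2.wt_single, R2.wt_rename hq hu]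
      norm_num
  have hpd0 : pderiv 0 (rename Fin.succ c : MvPolynomial (Fin 4) ℂ) = 0 := by
    refine pderiv_eq_zero_of_notMem_vars fun h => ?_
    obtain ⟨j, _, hj⟩ := Finset.mem_image.1 (vars_rename _ _ h)
    exact Fin.succ_ne_zero j hj
  have hgrad : ∀ p : Fin 4 → ℂ, p ≠ 0 → ∃ i, eval p (pderiv i P) ≠ 0 := by
    intro p hp
    by_cases hp0 : p 0 = 0
    · have hp' : (p ∘ Fin.succ) ≠ 0 := by
        intro h
        apply hp
        funext j
        refine Fin.cases hp0 (fun i => ?_) j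
        exact congrFun h i
      obtain ⟨i, hi⟩ := hs _ hp'
      refine ⟨i.succ, ?_⟩
      rw [hPd, map_add, pderiv_pow, pderiv_X_of_ne (Fin.succ_ne_zero i).symm, mul_zero, zero_add,
        pderiv_rename (Fin.succ_injective 3), eval_rename]
      exact hi
    · refine ⟨0, ?_⟩
      rw [hPd, map_add, hpd0, add_zero, pderiv_pow, pderiv_X_self]
      simpa using hp0
  have hPne : P ≠ 0 := by
    rintro h
    obtain ⟨i, hi⟩ := hgrad (fun _ => 1) (fun h => one_ne_zero (congrFun h 0))
    rw [h, map_zero, map_zero] at hi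
    exact hi rfl
  rw [he, ← hPd, ← hQd]
  have hinit := R2.initialPart_eq_of_split hP hQ hPne
  have hsup : ∀ v ∈ (P + Q).support, 6 ≤ ∑ j, (![3, 2, 2, 2] : Fin 4 → ℕ) j * v j := by
    intro v hv
    rcases Finset.mem_union.1 (support_add hv) with h | h
    · exact (hP v h).ge
    · exact (hQ v h).le
  refine QV.SuLoc.of_sqh (w := ![3, 2, 2, 2]) (by intro i; fin_cases i <;> decide) ?_ ?_ ?_
  · rw [hinit]
    exact hgrad
  · intro h
    rw [h] at hinit
    have h1 : initialPart (0 : MvPolynomial (Fin 4) ℂ) ![3, 2, 2, 2] = 0 := by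
      unfold initialPart
      simp
    rw [h1] at hinit
    exact hPne hinit.symm
  · by_contra h
    have h1 := hsup 0 (mem_support_iff.2 h)
    simp at h1

end CV

end MPb07157
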